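import Mathlib
import Pool.Agent.MP_5c5acc_nt.Final

namespace Pool.Agent.Results.MP_5c5acc_nt.Reduction

open Pool.Agent.MP_5c5acc_nt

/-- Every non-square `n` is good, unless `n = 2 * b ^ 2` with `8 * b ^ 2 + 8 * b + 1` a square. -/
theorem result :
    ∀ n : ℕ, ¬ IsSquare n →
      (∀ b : ℕ, n = 2 * b ^ 2 → ¬ IsSquare (8 * b ^ 2 + 8 * b + 1)) →
      ∀ t : ℕ, n < t → IsSquare (n * t) →
        (∀ u : ℕ, n < u → u < t → ¬ IsSquare (n * u)) →
        ∃ r s : ℕ, n < r ∧ r < s ∧ s < t ∧ IsSquare (n * r * s) := by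
  intro n hn hexc t hnt ht _
  obtain ⟨a, b, hab, hsq⟩ := Nat.sq_mul_squarefree n
  have hn' : n = a * b ^ 2 := by rw [← hab]; ring
  have hb : 1 ≤ b := by
    rcases Nat.eq_zero_or_pos b with h | h
    · subst h
      exact absurd ⟨0, by rw [hn']; ring⟩ hn
    · exact h
  have ha : 2 ≤ a := by
    rcases (by omega : a = 0 ∨ a = 1 ∨ 2 ≤ a) with h | h | h
    · subst h; exact absurd ⟨0, by rw [hn']; ring⟩ hn
    · subst h; exact absurd ⟨b, by rw [hn']; ring⟩ hn
    · exact h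
  refine good_of_cov n t a b hn' ha hsq hb hnt ht ?_
  apply cov_all a b ha (not_isSquare_of_squarefree a ha hsq) hb
  intro h2
  exact cov_two b hb (hexc b (by rw [hn', h2]))

end Pool.Agent.Results.MP_5c5acc_nt.Reduction
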